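import Mathlib
import Pool.Agent.Q170.Snow

set_option autoImplicit false

open MeasureTheory Set Filter Topology

namespace Pool.Agent.Results.MP_ff06a2_an.SnowflakeNonuniqueness

/-- Euclidean space of dimension `d`. -/
abbrev E (d : ℕ) := EuclideanSpace ℝ (Fin d)

/-- The closed support of a measure. -/
def spt {d : ℕ} (ρ : Measure (E d)) : Set (E d) := {x | ∀ U ∈ 𝓝 x, 0 < ρ U}

/-- Admissible pairs of the dual problem. -/
def Admissible {d : ℕ} (ρ μ : Measure (E d)) (c : E d → E d → ℝ) (φ ψ : E d → ℝ) : Prop :=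
  Integrable φ ρ ∧ Integrable ψ μ ∧ ∀ x y, φ x + ψ y ≤ c x y

/-- Kantorovich potentials: maximising pairs of the dual problem. -/
def IsPotential {d : ℕ} (ρ μ : Measure (E d)) (c : E d → E d → ℝ) (φ ψ : E d → ℝ) : Prop :=
  Admissible ρ μ c φ ψ ∧ ∀ φ' ψ' : E d → ℝ, Admissible ρ μ c φ' ψ' →
    (∫ x, φ' x ∂ρ) + (∫ y, ψ' y ∂μ) ≤ (∫ x, φ x ∂ρ) + (∫ y, ψ y ∂μ)

/-- Uniqueness of the potentials up to a constant. -/
def UniqueUpToConstant {d : ℕ} (ρ μ : Measure (E d)) (c : E d → E d → ℝ) : Prop :=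
  ∀ φ₀ ψ₀ φ₁ ψ₁ : E d → ℝ, IsPotential ρ μ c φ₀ ψ₀ → IsPotential ρ μ c φ₁ ψ₁ →
    ∃ l : ℝ, (∀ᵐ x ∂ρ, φ₀ x - φ₁ x = l) ∧ ∀ᵐ y ∂μ, ψ₀ y - ψ₁ y = -l

/-- The standing hypotheses (H). -/
def StandingH {d : ℕ} (ρ μ : Measure (E d)) (c : E d → E d → ℝ) : Prop :=
  Bornology.IsBounded (spt μ) ∧ ContDiff ℝ 1 (fun p : E d × E d => c p.1 p.2) ∧
  ∃ a b : E d → ℝ, UpperSemicontinuous a ∧ UpperSemicontinuous b ∧
    Integrable a ρ ∧ Integrable b μ ∧ ∀ x y, |c x y| ≤ a x + b y

/-! ### The example -/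

open Pool.Agent.Q170.Snow

/-- the curve -/
noncomputable def K : Set (E 10) := gam '' Icc 0 1

/-- the measure carried by the curve -/
noncomputable def rho : Measure (E 10) := Measure.map gam (volume.restrict (Icc (0:ℝ) 1))

noncomputable def cost (x y : E 10) : ℝ := 64 * ‖x - y‖ ^ 2

instance : IsProbabilityMeasure rho := by
  constructor
  unfold rho
  rw [Measure.map_apply continuous_gam.measurable MeasurableSet.univ]
  simp

lemma isCompact_K : IsCompact K := isCompact_Icc.image continuous_gam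

lemma isClosed_K : IsClosed K := isCompact_K.isClosed

lemma spt_rho : spt rho = K := by
  ext x
  constructor
  · intro hx
    by_contra hcon
    have h1 : Kᶜ ∈ 𝓝 x := isClosed_K.isOpen_compl.mem_nhds hcon
    have h2 := hx _ h1
    unfold rho at h2
    rw [Measure.map_apply continuous_gam.measurable isClosed_K.isOpen_compl.measurableSet,
      Measure.restrict_apply (continuous_gam.measurable isClosed_K.isOpen_compl.measurableSet)] at h2
    have h3 : gam ⁻¹' Kᶜ ∩ Icc (0:ℝ) 1 = ∅ := by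
      ext t
      simp only [mem_inter_iff, mem_preimage, mem_compl_iff, mem_empty_iff_false, iff_false, not_and]
      intro h4 h5
      exact h4 ⟨t, h5, rfl⟩
    rw [h3] at h2
    simp at h2
  · rintro ⟨t, ht, rfl⟩ U hU
    obtain ⟨V, hVU, hVo, htV⟩ := mem_nhds_iff.1 hU
    refine lt_of_lt_of_le ?_ (measure_mono hVU)
    unfold rho
    rw [Measure.map_apply continuous_gam.measurable hVo.measurableSet,
      Measure.restrict_apply (continuous_gam.measurable hVo.measurableSet)]
    have ho : IsOpen (gam ⁻¹' V) := hVo.preimage continuous_gam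
    obtain ⟨ε, hε, hball⟩ := Metric.isOpen_iff.1 ho t htV
    -- an interval inside
    have hsub : Ioo (max 0 (t - ε)) (min 1 (t + ε)) ⊆ gam ⁻¹' V ∩ Icc (0:ℝ) 1 := by
      intro s hs
      have h1 := hs.1
      have h2 := hs.2
      rw [max_lt_iff] at h1
      rw [lt_min_iff] at h2
      refine ⟨hball ?_, h1.1.le, h2.1.le⟩
      rw [Metric.mem_ball, Real.dist_eq, abs_lt]
      constructor <;> linarith
    refine lt_of_lt_of_le ?_ (measure_mono hsub)
    rw [Real.volume_Ioo, ENNReal.ofReal_pos, sub_pos, max_lt_iff, lt_min_iff, lt_min_iff]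
    refine ⟨⟨one_pos, ?_⟩, ?_, ?_⟩ <;> linarith [ht.1, ht.2]

open Classical in
/-- the inverse of the curve on `K`, and `-1` off `K` -/
noncomputable def g (σ : ℝ) : E 10 → ℝ :=
  K.piecewise (fun x => σ * Function.invFunOn gam (Icc 0 1) x) (fun _ => -1)

lemma inv_spec {t : ℝ} (ht : t ∈ Icc (0:ℝ) 1) : Function.invFunOn gam (Icc 0 1) (gam t) = t := by
  have h1 : gam t ∈ gam '' Icc 0 1 := ⟨t, ht, rfl⟩
  have h2 := Function.invFunOn_mem h1
  have h3 := Function.invFunOn_eq h1
  set s := Function.invFunOn gam (Icc 0 1) (gam t)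
  have h4 : |s - t| ≤ 1 := by
    rw [abs_le]; constructor <;> linarith [h2.1, h2.2, ht.1, ht.2]
  have h5 := gam_lower h4
  rw [h3, sub_self, norm_zero] at h5
  have h6 : |s - t| = 0 := le_antisymm (by simpa using h5) (abs_nonneg _)
  linarith [abs_eq_zero.1 h6]

lemma inv_lip {x y : E 10} (hx : x ∈ K) (hy : y ∈ K) :
    |Function.invFunOn gam (Icc 0 1) x - Function.invFunOn gam (Icc 0 1) y| ≤ 64 * ‖x - y‖ ^ 2 := by
  obtain ⟨s, hs, rfl⟩ := hx
  obtain ⟨t, ht, rfl⟩ := hy
  rw [inv_spec hs, inv_spec ht]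
  apply gam_lower
  rw [abs_le]; constructor <;> linarith [hs.1, hs.2, ht.1, ht.2]

lemma inv_cont : ContinuousOn (fun x => Function.invFunOn gam (Icc (0:ℝ) 1) x) K := by
  intro x hx
  rw [ContinuousWithinAt, tendsto_iff_dist_tendsto_zero]
  have h1 : Tendsto (fun y : E 10 => 64 * ‖y - x‖ ^ 2) (𝓝[K] x) (𝓝 0) := by
    have : Continuous (fun y : E 10 => 64 * ‖y - x‖ ^ 2) := by fun_prop
    have h2 := this.tendsto x
    rw [sub_self, norm_zero] at h2
    norm_num at h2
    exact h2.mono_left nhdsWithin_le_nhds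
  refine tendsto_of_tendsto_of_tendsto_of_le_of_le' tendsto_const_nhds h1
    (Eventually.of_forall fun _ => dist_nonneg) ?_
  filter_upwards [self_mem_nhdsWithin] with y hy
  rw [Real.dist_eq]
  exact inv_lip hy hx

lemma g_meas (σ : ℝ) : Measurable (g σ) := by
  classical
  unfold g
  exact (inv_cont.const_mul σ).measurable_piecewise continuousOn_const isClosed_K.measurableSet

lemma g_gam (σ : ℝ) {t : ℝ} (ht : t ∈ Icc (0:ℝ) 1) : g σ (gam t) = σ * t := by
  classical
  unfold g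
  have hm : gam t ∈ K := ⟨t, ht, rfl⟩
  rw [piecewise_eq_of_mem _ _ _ hm, inv_spec ht]

lemma g_off (σ : ℝ) {x : E 10} (hx : x ∉ K) : g σ x = -1 := by
  classical
  unfold g
  exact piecewise_eq_of_notMem _ _ _ hx

lemma g_le (σ : ℝ) (hσ : |σ| ≤ 1) (x : E 10) : |g σ x| ≤ 1 := by
  by_cases hx : x ∈ K
  · obtain ⟨t, ht, rfl⟩ := hx
    rw [g_gam σ ht, abs_mul, abs_of_nonneg ht.1]
    nlinarith [ht.1, ht.2, abs_nonneg σ]
  · rw [g_off σ hx]; norm_num

lemma g_int (σ : ℝ) (hσ : |σ| ≤ 1) : Integrable (g σ) rho := by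
  refine Integrable.of_bound (g_meas σ).aestronglyMeasurable 1 ?_
  exact Eventually.of_forall fun x => by rw [Real.norm_eq_abs]; exact g_le σ hσ x

lemma sum_le (x y : E 10) : g 1 x + g (-1) y ≤ cost x y := by
  have hc : 0 ≤ cost x y := by unfold cost; positivity
  have b1 := g_le 1 (by norm_num) x
  have b2 := g_le (-1) (by norm_num) y
  rw [abs_le] at b1 b2
  by_cases hx : x ∈ K
  · by_cases hy : y ∈ K
    · have h := inv_lip hx hy
      obtain ⟨s, hs, rfl⟩ := hx
      obtain ⟨t, ht, rfl⟩ := hy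
      rw [inv_spec hs, inv_spec ht] at h
      rw [g_gam 1 hs, g_gam (-1) ht]
      unfold cost
      have := le_abs_self (s - t)
      linarith
    · rw [g_off _ hy]; linarith
  · rw [g_off _ hx]; linarith

lemma sum_zero : (∫ x, g 1 x ∂rho) + (∫ y, g (-1) y ∂rho) = 0 := by
  rw [← integral_add (g_int 1 (by norm_num)) (g_int (-1) (by norm_num))]
  apply integral_eq_zero_of_ae
  have hK : ∀ᵐ x ∂rho, x ∈ K := by
    unfold rho
    have hms : MeasurableSet {x : E 10 | x ∈ K} := isClosed_K.measurableSet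
    rw [ae_map_iff continuous_gam.measurable.aemeasurable hms]
    rw [ae_restrict_iff' measurableSet_Icc]
    exact Eventually.of_forall fun t ht => ⟨t, ht, rfl⟩
  filter_upwards [hK] with x hx
  obtain ⟨t, ht, rfl⟩ := hx
  show g 1 (gam t) + g (-1) (gam t) = 0
  rw [g_gam 1 ht, g_gam (-1) ht]; ring

lemma total_nonpos {φ ψ : E 10 → ℝ} (h : Admissible rho rho cost φ ψ) :
    (∫ x, φ x ∂rho) + (∫ y, ψ y ∂rho) ≤ 0 := by
  rw [← integral_add h.1 h.2.1]
  apply integral_nonpos
  intro x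
  have := h.2.2 x x
  unfold cost at this
  simpa using this

lemma standing : StandingH rho rho cost := by
  refine ⟨?_, ?_, fun x => 128 * ‖x‖ ^ 2, fun x => 128 * ‖x‖ ^ 2, ?_, ?_, ?_, ?_, ?_⟩
  · rw [spt_rho]; exact isCompact_K.isBounded
  · unfold cost
    exact contDiff_const.mul ((contDiff_fst.sub contDiff_snd).norm_sq ℝ)
  · exact (by fun_prop : Continuous (fun x : E 10 => 128 * ‖x‖ ^ 2)).upperSemicontinuous
  · exact (by fun_prop : Continuous (fun x : E 10 => 128 * ‖x‖ ^ 2)).upperSemicontinuous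
  all_goals
    have hint : Integrable (fun x : E 10 => 128 * ‖x‖ ^ 2) rho := by
      unfold rho
      rw [integrable_map_measure (by fun_prop) continuous_gam.measurable.aemeasurable]
      have : Continuous ((fun x : E 10 => 128 * ‖x‖ ^ 2) ∘ gam) :=
        (by fun_prop : Continuous (fun x : E 10 => 128 * ‖x‖ ^ 2)).comp continuous_gam
      exact this.continuousOn.integrableOn_compact isCompact_Icc
  · exact hint
  · exact hint
  · intro x y
    unfold cost
    rw [abs_of_nonneg (by positivity)]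
    have h1 : ‖x - y‖ ≤ ‖x‖ + ‖y‖ := norm_sub_le _ _
    have h2 : ‖x - y‖ ^ 2 ≤ (‖x‖ + ‖y‖) ^ 2 := by gcongr
    nlinarith [sq_nonneg (‖x‖ - ‖y‖)]

/-- There are `d ≥ 1`, Borel probability measures `ρ, μ` on `ℝ^d` and a cost satisfying (H), with
`spt ρ` connected, for which the dual problem has optimal pairs that do not differ by a
constant. -/
theorem result : ∃ (d : ℕ) (ρ μ : Measure (E d)) (c : E d → E d → ℝ), 1 ≤ d ∧
    IsProbabilityMeasure ρ ∧ IsProbabilityMeasure μ ∧ StandingH ρ μ c ∧ IsConnected (spt ρ) ∧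
    (∃ φ ψ : E d → ℝ, IsPotential ρ μ c φ ψ) ∧ ¬ UniqueUpToConstant ρ μ c := by
  have hzero : IsPotential rho rho cost (fun _ => 0) (fun _ => 0) := by
    refine ⟨⟨integrable_zero _ _ _, integrable_zero _ _ _, fun x y => ?_⟩, fun φ ψ h => ?_⟩
    · rw [add_zero]; unfold cost; positivity
    · simpa using total_nonpos h
  have hg : IsPotential rho rho cost (g 1) (g (-1)) := by
    refine ⟨⟨g_int 1 (by norm_num), g_int (-1) (by norm_num), sum_le⟩, fun φ ψ h => ?_⟩
    rw [sum_zero]; exact total_nonpos h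
  refine ⟨10, rho, rho, cost, by norm_num, inferInstance, inferInstance, standing, ?_,
    ⟨_, _, hzero⟩, ?_⟩
  · rw [spt_rho]
    exact (isConnected_Icc zero_le_one).image _ continuous_gam.continuousOn
  · intro hu
    obtain ⟨l, hl, _⟩ := hu _ _ _ _ hzero hg
    unfold rho at hl
    have hmeas : MeasurableSet {x : E 10 | (0:ℝ) - g 1 x = l} :=
      measurableSet_eq_fun (measurable_const.sub (g_meas 1)) measurable_const
    rw [ae_map_iff continuous_gam.measurable.aemeasurable hmeas] at hl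
    rw [ae_restrict_iff' measurableSet_Icc] at hl
    have h1 : ∀ᵐ t : ℝ, t ∈ Icc (0:ℝ) 1 → t = -l := by
      filter_upwards [hl] with t ht hmem
      have := ht hmem
      rw [g_gam 1 hmem] at this
      linarith
    have h2 : volume {t : ℝ | ¬ (t ∈ Icc (0:ℝ) 1 → t = -l)} = 0 := h1
    have h3 : Icc (0:ℝ) 1 \ {-l} ⊆ {t : ℝ | ¬ (t ∈ Icc (0:ℝ) 1 → t = -l)} := by
      intro t ht hcon
      exact ht.2 (hcon ht.1)
    have h4 : volume (Icc (0:ℝ) 1 \ {-l}) = 0 := measure_mono_null h3 h2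
    rw [measure_sdiff_null (by simp)] at h4
    simp at h4

end Pool.Agent.Results.MP_ff06a2_an.SnowflakeNonuniqueness
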